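import Mathlib
import Pool.Agent.Lib.MP_e95952_lc.Cont

set_option autoImplicit false

namespace Pool.Agent.Results.MP_e95952_lc.CanonicalNegative

open Pool.Agent.Lib.MP_e95952_lc

/-- The negated form of the problem holds whenever the continuum is at most the second uncountable
cardinal and the parametrized diamond of the mixing relation follows from a small value. -/
theorem result (hc : Cardinal.continuum ≤ Cardinal.aleph.{0} 2)
    (hd : invValue Mixes ≤ Cardinal.aleph 1 → ParamDiamond Mixes)
    (hsu : splittingNumber = ultrafilterNumber) : ¬ Polarized splittingNumber :=
  negative_of_canonical hc hd hsu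

end Pool.Agent.Results.MP_e95952_lc.CanonicalNegative
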