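import Mathlib
import Pool.Agent.Lib.MP_e95952_lc.Dia

set_option autoImplicit false

namespace Pool.Agent.Results.MP_e95952_lc.DiamondNegative

open Pool.Agent.Lib.MP_e95952_lc

/-- The parametrized diamond of the mixing relation refutes the strong polarized relation at the
first uncountable cardinal. -/
theorem result (h : ParamDiamond Mixes) : ¬ Polarized (Cardinal.aleph 1) :=
  not_polarized_of_diamond h

end Pool.Agent.Results.MP_e95952_lc.DiamondNegative
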