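import Mathlib
import Pool.Agent.Lib.MP_e95952_lc.Coh

set_option autoImplicit false

namespace Pool.Agent.Results.MP_e95952_lc.ThreeClasses

open Pool.Agent.Lib.MP_e95952_lc

/-- If the splitting number equals the ultrafilter number and the strong polarized relation holds
at the splitting number, then there are at most three near-coherence classes of nonprincipal
ultrafilters. -/
theorem result (hsu : splittingNumber = ultrafilterNumber) (hP : Polarized splittingNumber)
    (V : Fin 4 → Ultrafilter ℕ) (hV : ∀ i, Nonprincipal (V i)) :
    ∃ i j : Fin 4, i ≠ j ∧ NearlyCoherent (V i) (V j) := by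
  by_contra hc
  push Not at hc
  exact not_polarized_of_four hsu V hV hc hP

end Pool.Agent.Results.MP_e95952_lc.ThreeClasses
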