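import Mathlib
import Pool.Agent.Lib.MP_e95952_lc.Coh

set_option autoImplicit false

namespace Pool.Agent.Results.MP_e95952_lc.TwoClassesAlephOne

open Pool.Agent.Lib.MP_e95952_lc

/-- If the ultrafilter number is the first uncountable cardinal and the strong polarized relation
holds there, then there are at most two near-coherence classes of nonprincipal ultrafilters. -/
theorem result (hu : ultrafilterNumber = Cardinal.aleph 1) (hP : Polarized (Cardinal.aleph 1))
    (V : Fin 3 → Ultrafilter ℕ) (hV : ∀ i, Nonprincipal (V i)) :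
    ∃ i j : Fin 3, i ≠ j ∧ NearlyCoherent (V i) (V j) := by
  by_contra hc
  push Not at hc
  have hb : ∀ i, Bdd ultrafilterNumber (V i) := fun i => hu ▸ bdd_aleph_one (hV i)
  exact not_polarized_of_three (hV 0) (hV 1) (hV 2) (hc 0 1 (by decide)) (hc 0 2 (by decide))
    (hc 1 2 (by decide)) (hb 0) (hb 1) (hb 2) (hu ▸ hP)

end Pool.Agent.Results.MP_e95952_lc.TwoClassesAlephOne
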